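import Pool.Agent.LE.StmtsZ

/-!
# LSH, row CTS: the Combes-Thomas bound with the sharp constant, in the sup distance
-/

set_option autoImplicit false
set_option linter.unusedSectionVars false

open MeasureTheory ProbabilityTheory Function

open scoped ENNReal BigOperators

noncomputable section

namespace Pool.Agent.LE.H3Z

open Pool.Agent.Anderson Pool.Agent.Loc Pool.Agent.LE

variable {d : ℕ}

/-- the hopping in the direction `i` -/
def h1 (i : Fin d) (y z : Site d) : ℝ :=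
  (if z = y + Pi.single i 1 then 1 else 0) + (if z = y - Pi.single i 1 then 1 else 0)

theorem hop_eq (y z : Site d) : hop y z = ∑ i, h1 i y z := rfl

theorem h1_nonneg (i : Fin d) (y z : Site d) : 0 ≤ h1 i y z := by
  unfold h1
  positivity

theorem h1_comm (i : Fin d) (y z : Site d) : h1 i y z = h1 i z y := by
  unfold h1
  have e1 : (z = y + Pi.single i 1) ↔ (y = z - Pi.single i 1) := by
    constructor
    · rintro rfl; simp
    · rintro rfl; simp
  have e2 : (z = y - Pi.single i 1) ↔ (y = z + Pi.single i 1) := by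
    constructor
    · rintro rfl; simp
    · rintro rfl; simp
  simp only [e1, e2]
  ring

theorem sum_h1_le (i : Fin d) (y : Site d) (Λ : Finset (Site d)) : ∑ z ∈ Λ, h1 i y z ≤ 2 := by
  unfold h1
  rw [Finset.sum_add_distrib, Finset.sum_ite_eq', Finset.sum_ite_eq']
  split_ifs <;> norm_num

/-- Schur's test for kernels dominated by the hopping in one direction -/
theorem schur1 (i : Fin d) (Λ : Finset (Site d)) (u : Site d → ℝ) {k : Site d → Site d → ℝ} {c : ℝ}
    (hc : 0 ≤ c) (hk : ∀ y z, |k y z| ≤ c * h1 i y z) :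
    |∑ y ∈ Λ, ∑ z ∈ Λ, u y * k y z * u z| ≤ c * 2 * ∑ y ∈ Λ, u y ^ 2 := by
  have h0 : ∀ y z, |u y * k y z * u z| ≤ c / 2 * (h1 i y z * u y ^ 2) +
      c / 2 * (h1 i y z * u z ^ 2) := by
    intro y z
    rw [abs_mul, abs_mul]
    have h2 := hk y z
    have h3 := h1_nonneg i y z
    have h4 : |u y| * |u z| ≤ (u y ^ 2 + u z ^ 2) / 2 := by
      have := two_mul_le_add_sq |u y| |u z|
      rw [sq_abs, sq_abs] at this
      linarith
    calc |u y| * |k y z| * |u z| = |k y z| * (|u y| * |u z|) := by ring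
      _ ≤ (c * h1 i y z) * ((u y ^ 2 + u z ^ 2) / 2) := by gcongr
      _ = _ := by ring
  calc |∑ y ∈ Λ, ∑ z ∈ Λ, u y * k y z * u z|
      ≤ ∑ y ∈ Λ, ∑ z ∈ Λ, |u y * k y z * u z| :=
        (Finset.abs_sum_le_sum_abs _ _).trans (Finset.sum_le_sum fun y _ =>
          Finset.abs_sum_le_sum_abs _ _)
    _ ≤ ∑ y ∈ Λ, ∑ z ∈ Λ, (c / 2 * (h1 i y z * u y ^ 2) + c / 2 * (h1 i y z * u z ^ 2)) :=
        Finset.sum_le_sum fun y _ => Finset.sum_le_sum fun z _ => h0 y z
    _ = c / 2 * ∑ y ∈ Λ, (∑ z ∈ Λ, h1 i y z) * u y ^ 2 +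
        c / 2 * ∑ z ∈ Λ, (∑ y ∈ Λ, h1 i z y) * u z ^ 2 := by
        simp_rw [Finset.sum_add_distrib]
        congr 1
        · simp_rw [Finset.sum_mul, Finset.mul_sum]
        · rw [Finset.sum_comm]
          simp_rw [Finset.sum_mul, Finset.mul_sum]
          apply Finset.sum_congr rfl
          intro z _
          apply Finset.sum_congr rfl
          intro y _
          rw [h1_comm i y z]
    _ ≤ c / 2 * ∑ y ∈ Λ, 2 * u y ^ 2 + c / 2 * ∑ z ∈ Λ, 2 * u z ^ 2 := by
        have h5 : ∑ y ∈ Λ, (∑ z ∈ Λ, h1 i y z) * u y ^ 2 ≤ ∑ y ∈ Λ, 2 * u y ^ 2 :=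
          Finset.sum_le_sum fun y _ => mul_le_mul_of_nonneg_right (sum_h1_le i y Λ) (sq_nonneg _)
        gcongr
    _ = _ := by
        rw [← Finset.mul_sum]
        ring

/-- the weighted hopping -/
theorem cosh_hop (i : Fin d) (κ : ℝ) (z z' : Site d) :
    (Real.cosh (κ * ((z i : ℝ) - z' i)) - 1) * hop z z' = (Real.cosh κ - 1) * h1 i z z' := by
  rw [hop_eq, Finset.mul_sum, Finset.sum_eq_single i]
  · unfold h1
    by_cases e1 : z' = z + Pi.single i 1
    · have e2 : (z i : ℝ) - z' i = -1 := by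
        rw [e1]
        simp
      rw [e2, mul_neg, mul_one, Real.cosh_neg]
    · by_cases e3 : z' = z - Pi.single i 1
      · have e2 : (z i : ℝ) - z' i = 1 := by
          rw [e3]
          simp
        rw [e2, mul_one]
      · rw [if_neg e1, if_neg e3]
        simp
  · intro j _ hj
    unfold h1
    by_cases e1 : z' = z + Pi.single j 1
    · have e2 : (z i : ℝ) - z' i = 0 := by
        rw [e1]
        simp [Ne.symm hj]
      rw [e2, mul_zero, Real.cosh_zero, sub_self, zero_mul]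
    · by_cases e3 : z' = z - Pi.single j 1
      · have e2 : (z i : ℝ) - z' i = 0 := by
          rw [e3]
          simp [Ne.symm hj]
        rw [e2, mul_zero, Real.cosh_zero, sub_self, zero_mul]
      · rw [if_neg e1, if_neg e3]
        simp
  · intro h
    exact absurd (Finset.mem_univ i) h

theorem cts : CtsStmt := by
  intro d V Λ E δ κ g hd hg hκ hδ hform
  have hδ0 : 0 < δ := by
    have := Real.one_le_cosh κ
    linarith
  have hLB : LB V Λ E 1 δ := fun u => by rw [one_mul]; exact hform u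
  have hdet := Pool.Agent.LE.H3Y.det_ne hδ0 hLB
  refine ⟨hdet, fun x y => ?_⟩
  by_cases hxy : x ∈ Λ ∧ y ∈ Λ
  swap
  · unfold gr
    rw [dif_neg hxy, abs_zero]
    positivity
  obtain ⟨hx, hy⟩ := hxy
  obtain ⟨i, hi⟩ : ∃ i : Fin d, sd x y = (x i - y i).natAbs := by
    have hne : (Finset.univ : Finset (Fin d)).Nonempty := ⟨⟨0, hd⟩, Finset.mem_univ _⟩
    obtain ⟨i, -, hi⟩ := Finset.exists_mem_eq_sup Finset.univ hne (fun i => (x i - y i).natAbs)
    exact ⟨i, hi⟩
  obtain ⟨τ, hτ, hτy⟩ : ∃ τ : ℝ, |τ| = κ ∧ τ * ((y i : ℝ) - x i) = κ * sd x y := by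
    rw [hi]
    have e : (((x i - y i).natAbs : ℕ) : ℝ) = |(x i : ℝ) - y i| := by
      rw [Nat.cast_natAbs]
      push_cast
      rfl
    rw [e]
    rcases le_total (x i : ℝ) (y i : ℝ) with h | h
    · refine ⟨κ, abs_of_nonneg hκ, ?_⟩
      rw [abs_of_nonpos (by linarith)]
      ring
    · refine ⟨-κ, by rw [abs_neg, abs_of_nonneg hκ], ?_⟩
      rw [abs_of_nonneg (by linarith)]
      ring
  have hcτ : Real.cosh τ = Real.cosh κ := by
    rw [← hτ, Real.cosh_abs]
  -- the weighted vector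
  set w : Site d → ℝ := fun z => Real.exp (τ * ((z i : ℝ) - x i)) with hw
  have hw0 : ∀ z, 0 < w z := fun z => Real.exp_pos _
  set ψ : Site d → ℝ := fun z => w z * gr V Λ E x z with hψ
  have hwx : w x = 1 := by simp [hw]
  have heq : ∀ z ∈ Λ, ∑ z' ∈ Λ, gr V Λ E x z' * rm V E z' z = if x = z then 1 else 0 :=
    fun z hz => gr_mul_rm hdet hx hz
  have hrm : ∀ z z', rm V E z z' = rm V E z' z := by
    intro z z'
    unfold rm
    rw [hop_comm]
    by_cases hzz : z = z'
    · subst hzz; simp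
    · rw [if_neg hzz, if_neg (Ne.symm hzz)]
  -- the conjugated form
  have k1 : ∑ z ∈ Λ, ∑ z' ∈ Λ, ψ z * (w z / w z' * rm V E z z') * ψ z' = ψ x := by
    have h2 : ∀ z ∈ Λ, ∑ z' ∈ Λ, ψ z * (w z / w z' * rm V E z z') * ψ z' =
        if x = z then ψ z * w z else 0 := by
      intro z hz
      have h3 : ∀ z', ψ z * (w z / w z' * rm V E z z') * ψ z' =
          ψ z * w z * (gr V Λ E x z' * rm V E z' z) := by
        intro z'
        have := (hw0 z').ne'
        rw [hrm z z']
        simp only [hψ]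
        field_simp
      simp_rw [h3]
      rw [← Finset.mul_sum, heq z hz]
      split_ifs <;> ring
    rw [Finset.sum_congr rfl h2, Finset.sum_ite_eq, if_pos hx, hwx, mul_one]
  have k2 : ∑ z ∈ Λ, ∑ z' ∈ Λ, ψ z * (w z / w z' * rm V E z z') * ψ z' =
      qform V Λ E ψ + ∑ z ∈ Λ, ∑ z' ∈ Λ, ψ z * ((w z / w z' - 1) * rm V E z z') * ψ z' := by
    unfold qform
    rw [← Finset.sum_add_distrib]
    apply Finset.sum_congr rfl
    intro z _
    rw [← Finset.sum_add_distrib]
    apply Finset.sum_congr rfl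
    intro z' _
    ring
  have hcosh : 0 ≤ Real.cosh κ - 1 := by
    have := Real.one_le_cosh κ
    linarith
  have hsym : ∑ z ∈ Λ, ∑ z' ∈ Λ, ψ z * ((w z / w z' - 1) * rm V E z z') * ψ z' =
      ∑ z ∈ Λ, ∑ z' ∈ Λ, ψ z * (((w z / w z' + w z' / w z) / 2 - 1) * rm V E z z') * ψ z' := by
    have e1 : ∑ z ∈ Λ, ∑ z' ∈ Λ, ψ z * ((w z / w z' - 1) * rm V E z z') * ψ z' =
        ∑ z ∈ Λ, ∑ z' ∈ Λ, ψ z * ((w z' / w z - 1) * rm V E z z') * ψ z' := by
      rw [Finset.sum_comm]
      refine Finset.sum_congr rfl fun z _ => Finset.sum_congr rfl fun z' _ => ?_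
      rw [hrm z' z]
      ring
    have e2 : ∑ z ∈ Λ, ∑ z' ∈ Λ, ψ z * (((w z / w z' + w z' / w z) / 2 - 1) * rm V E z z') * ψ z' =
        (∑ z ∈ Λ, ∑ z' ∈ Λ, ψ z * ((w z / w z' - 1) * rm V E z z') * ψ z' +
          ∑ z ∈ Λ, ∑ z' ∈ Λ, ψ z * ((w z' / w z - 1) * rm V E z z') * ψ z') / 2 := by
      rw [← Finset.sum_add_distrib, Finset.sum_div]
      refine Finset.sum_congr rfl fun z _ => ?_
      rw [← Finset.sum_add_distrib, Finset.sum_div]
      refine Finset.sum_congr rfl fun z' _ => ?_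
      ring
    rw [e2, ← e1]
    ring
  have k3 : |∑ z ∈ Λ, ∑ z' ∈ Λ, ψ z * ((w z / w z' - 1) * rm V E z z') * ψ z'| ≤
      (Real.cosh κ - 1) * 2 * ∑ z ∈ Λ, ψ z ^ 2 := by
    rw [hsym]
    apply schur1 i Λ ψ hcosh
    intro z z'
    by_cases hzz : z = z'
    · subst hzz
      rw [div_self (hw0 z).ne']
      norm_num
      exact mul_nonneg hcosh (h1_nonneg _ _ _)
    · have e1 : rm V E z z' = - hop z z' := by
        unfold rm
        rw [if_neg hzz]; ring
      have e2 : ∀ a b : Site d, w a / w b = Real.exp (τ * ((a i : ℝ) - b i)) := by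
        intro a b
        simp only [hw]
        rw [← Real.exp_sub]
        congr 1
        ring
      have e3 : (w z / w z' + w z' / w z) / 2 = Real.cosh (τ * ((z i : ℝ) - z' i)) := by
        rw [e2 z z', e2 z' z, Real.cosh_eq]
        congr 3
        ring
      have e5 := Real.one_le_cosh (τ * ((z i : ℝ) - z' i))
      rw [e1, abs_mul, abs_neg, abs_of_nonneg (hop_nonneg z z'), e3,
        abs_of_nonneg (by linarith), cosh_hop, hcτ]
  have h4 := hform ψ
  set S := ∑ z ∈ Λ, ψ z ^ 2 with hS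
  have hS0 : 0 ≤ S := Finset.sum_nonneg fun z _ => sq_nonneg _
  rw [k2] at k1
  generalize (∑ z ∈ Λ, ∑ z' ∈ Λ, ψ z * ((w z / w z' - 1) * rm V E z z') * ψ z') = T at k1 k3
  have h5 : qform V Λ E ψ = ψ x - T := by linarith
  have h6 : qform V Λ E ψ ≤ |ψ x| + (Real.cosh κ - 1) * 2 * S := by
    calc qform V Λ E ψ ≤ |qform V Λ E ψ| := le_abs_self _
      _ ≤ |ψ x| + |T| := by
          rw [h5]; exact abs_sub _ _
      _ ≤ |ψ x| + (Real.cosh κ - 1) * 2 * S := by linarith
  have h7 : g * S ≤ |ψ x| := by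
    have h8 : (2 * (Real.cosh κ - 1) + g) * S ≤ δ * S := mul_le_mul_of_nonneg_right hδ hS0
    nlinarith
  have hle : ∀ z ∈ Λ, ψ z ^ 2 ≤ S := fun z hz =>
    Finset.single_le_sum (f := fun z => ψ z ^ 2) (fun z _ => sq_nonneg _) hz
  have h8 : |ψ x| ≤ √S := Real.abs_le_sqrt (hle x hx)
  have h9 : √S ≤ 1 / g := by
    rcases eq_or_lt_of_le (Real.sqrt_nonneg S) with h0 | h0
    · rw [← h0]; positivity
    · have h10 : g * (√S * √S) ≤ √S := by
        rw [Real.mul_self_sqrt hS0]; linarith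
      rw [le_div_iff₀ hg]
      have h11 : (g * √S) * √S ≤ 1 * √S := by linarith
      have := le_of_mul_le_mul_right h11 h0
      linarith
  have h10 : |ψ y| ≤ 1 / g := (Real.abs_le_sqrt (hle y hy)).trans h9
  simp only [hψ, hw, abs_mul, abs_of_pos (Real.exp_pos _)] at h10
  rw [hτy] at h10
  calc |gr V Λ E x y| = Real.exp (κ * sd x y) * |gr V Λ E x y| * Real.exp (-κ * sd x y) := by
        rw [mul_comm (Real.exp _), mul_assoc, ← Real.exp_add]
        simp
    _ ≤ 1 / g * Real.exp (-κ * sd x y) := by gcongr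

end Pool.Agent.LE.H3Z
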